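import Mathlib

/-!
# MP_722163_an: the partially bicyclic semigroup has the fixed point property `(F_{*s})`

Sketch. Let `C₀` be a minimal nonempty weak* compact convex invariant subset of `C`. On `T_e C₀` the
map `T_e` is the identity, so `T_a T_b = T_a T_c = id` there, and `T_b`, `T_c` are isometries of
`T_e C₀` into itself. Let `K` be a minimal nonempty weak* compact subset of `T_e C₀` invariant under
`T_b` and `T_c`. By norm separability and the Baire category theorem `K` has nonempty relatively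
weak* open subsets `U` of small norm diameter, and by minimality and weak* compactness `K` is covered
by finitely many sets `T_w⁻¹ U`, `w` a word in `b, c`. Since the `T_w` are isometries on `K`, the set
`K` is totally bounded in norm, so that `T_b K = T_c K = K` and then `T_a K = T_e K = K`. If `K` had
two points, De Marr's argument would give a proper weak* compact convex invariant subset of `C₀`. So
`K` is a point.
-/

open Set Filter Topology

namespace Pool.Agent.Results.MP_722163_an.PartiallyBicyclic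

section core

variable {Y : Type*} [TopologicalSpace Y] [T2Space Y]

/-- minimal nonempty compact subsets with a property stable under intersections -/
lemma exists_minimal (C : Set Y) (hC : IsCompact C) (hne : C.Nonempty) (Q : Set Y → Prop)
    (hQC : Q C) (hQ : ∀ 𝒞 : Set (Set Y), 𝒞.Nonempty → (∀ A ∈ 𝒞, Q A) → Q (⋂₀ 𝒞)) :
    ∃ M ⊆ C, M.Nonempty ∧ IsCompact M ∧ Q M ∧
      ∀ A ⊆ M, A.Nonempty → IsCompact A → Q A → A = M := by
  let 𝒮 : Set (Set Y) := {A | A ⊆ C ∧ A.Nonempty ∧ IsCompact A ∧ Q A}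
  obtain ⟨M, hM⟩ := zorn_superset 𝒮 (by
    intro c hc hchain
    rcases c.eq_empty_or_nonempty with rfl | hcne
    · exact ⟨C, ⟨subset_rfl, hne, hC, hQC⟩, by simp⟩
    · refine ⟨⋂₀ c, ⟨?_, ?_, ?_, ?_⟩, fun s hs => sInter_subset_of_mem hs⟩
      · obtain ⟨A, hA⟩ := hcne
        exact (sInter_subset_of_mem hA).trans (hc hA).1
      · have : Nonempty c := hcne.to_subtype
        refine IsCompact.nonempty_sInter_of_directed_nonempty_isCompact_isClosed ?_ ?_ ?_ ?_
        · intro A hA B hB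
          rcases hchain.total hA hB with h | h
          · exact ⟨A, hA, subset_rfl, h⟩
          · exact ⟨B, hB, h, subset_rfl⟩
        · exact fun U hU => (hc hU).2.1
        · exact fun U hU => (hc hU).2.2.1
        · exact fun U hU => (hc hU).2.2.1.isClosed
      · obtain ⟨A, hA⟩ := hcne
        exact (hc hA).2.2.1.of_isClosed_subset
          (isClosed_sInter fun B hB => (hc hB).2.2.1.isClosed) (sInter_subset_of_mem hA)
      · exact hQ c hcne (fun A hA => (hc hA).2.2.2))
  refine ⟨M, hM.prop.1, hM.prop.2.1, hM.prop.2.2.1, hM.prop.2.2.2, ?_⟩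
  intro A hA hAne hAc hAQ
  exact le_antisymm hA (hM.le_of_le ⟨hA.trans hM.prop.1, hAne, hAc, hAQ⟩ hA)

/-- action of words in two letters -/
def act {K : Type*} (b c : K → K) : List Bool → K → K
  | [], x => x
  | (w :: l), x => (if w then b else c) (act b c l x)

lemma act_continuous {K : Type*} [TopologicalSpace K] {b c : K → K} (hb : Continuous b)
    (hc : Continuous c) (w : List Bool) : Continuous (act b c w) := by
  induction w with
  | nil => exact continuous_id
  | cons a l ih =>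
    cases a
    · exact hc.comp ih
    · exact hb.comp ih

lemma act_isometry {K : Type*} {b c : K → K} (d : K → K → ℝ) (hb : ∀ x y, d (b x) (b y) = d x y)
    (hc : ∀ x y, d (c x) (c y) = d x y) (w : List Bool) (x y : K) :
    d (act b c w x) (act b c w y) = d x y := by
  induction w with
  | nil => rfl
  | cons a l ih =>
    cases a
    · exact (hc _ _).trans ih
    · exact (hb _ _).trans ih

/-- Total boundedness of a minimal compact space, from separability and Baire. -/
lemma totally_bounded {K : Type*} [TopologicalSpace K] [CompactSpace K] [T2Space K] [Nonempty K]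
    (d : K → K → ℝ)
    (hsep : ∀ ε > 0, ∃ f : ℕ → Set K, (∀ i, IsClosed (f i)) ∧
      (⋃ i, f i = univ) ∧ ∀ i, ∀ x ∈ f i, ∀ y ∈ f i, d x y ≤ ε)
    {b c : K → K} (hbc : Continuous b) (hcc : Continuous c)
    (hb : ∀ x y, d (b x) (b y) = d x y) (hc : ∀ x y, d (c x) (c y) = d x y)
    (hmin : ∀ A : Set K, IsClosed A → A.Nonempty → MapsTo b A A → MapsTo c A A → A = univ)
    (ε : ℝ) (hε : 0 < ε) :
    ∃ (F : Finset (List Bool)) (g : K → List Bool), (∀ x, g x ∈ F) ∧
      ∀ x y, g x = g y → d x y ≤ ε := by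
  obtain ⟨f, hf, hcov, hdiam⟩ := hsep ε hε
  obtain ⟨i, hi⟩ := nonempty_interior_of_iUnion_of_closed hf hcov
  set U := interior (f i) with hU
  have hUo : IsOpen U := isOpen_interior
  have hUd : ∀ x ∈ U, ∀ y ∈ U, d x y ≤ ε := fun x hx y hy =>
    hdiam i x (interior_subset hx) y (interior_subset hy)
  have horb : ∀ x : K, ∃ w : List Bool, act b c w x ∈ U := by
    intro x
    have hcl : closure (range fun w => act b c w x) = univ := by
      refine hmin (closure (range fun w => act b c w x)) isClosed_closure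
        (⟨x, subset_closure ⟨[], rfl⟩⟩) ?_ ?_
      · intro y hy
        have h1 := image_closure_subset_closure_image hbc (mem_image_of_mem b hy)
        refine closure_mono ?_ h1
        rintro _ ⟨_, ⟨w, rfl⟩, rfl⟩
        exact ⟨true :: w, by simp [act]⟩
      · intro y hy
        have h1 := image_closure_subset_closure_image hcc (mem_image_of_mem c hy)
        refine closure_mono ?_ h1
        rintro _ ⟨_, ⟨w, rfl⟩, rfl⟩
        exact ⟨false :: w, by simp [act]⟩
    have hd : Dense (range fun w => act b c w x) := dense_iff_closure_eq.2 hcl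
    obtain ⟨y, hyU, ⟨w, rfl⟩⟩ := hd.inter_open_nonempty U hUo hi
    exact ⟨w, hyU⟩
  obtain ⟨F, hF⟩ := isCompact_univ.elim_finite_subcover (fun w : List Bool => act b c w ⁻¹' U)
    (fun w => hUo.preimage (act_continuous hbc hcc w))
    (fun x _ => mem_iUnion.2 (horb x))
  have hF' : ∀ x : K, ∃ w ∈ F, act b c w x ∈ U := by
    intro x
    have := hF (mem_univ x)
    simpa using this
  choose g hg1 hg2 using hF'
  refine ⟨F, g, hg1, ?_⟩
  intro x y hxy
  rw [← act_isometry d hb hc (g x) x y]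
  exact hUd _ (hg2 x) _ (hxy ▸ hg2 y)

/-- isometries of totally bounded compact spaces are onto -/
lemma isometry_onto {K : Type*} [TopologicalSpace K] [CompactSpace K]
    (d : K → K → ℝ) (d0 : ∀ x y, d x y ≤ 0 → x = y)
    (dclosed : ∀ (y : K) (r : ℝ), IsClosed {x | d x y ≤ r})
    (dsymm : ∀ x y, d x y = d y x)
    (htb : ∀ ε > 0, ∃ (F : Finset (List Bool)) (g : K → List Bool), (∀ x, g x ∈ F) ∧
      ∀ x y, g x = g y → d x y ≤ ε)
    {b : K → K} (hbc : Continuous b) (hb : ∀ x y, d (b x) (b y) = d x y) (y : K) :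
    ∃ z, b z = y := by
  have hiter : ∀ n x y, d (b^[n] x) (b^[n] y) = d x y := by
    intro n
    induction n with
    | zero => intro x y; rfl
    | succ n ih => intro x y; rw [Function.iterate_succ_apply, Function.iterate_succ_apply, ih, hb]
  have happ : ∀ ε > 0, ∃ z, d (b z) y ≤ ε := by
    intro ε hε
    obtain ⟨F, g, hgF, hg⟩ := htb ε hε
    obtain ⟨m, n, hmn, heq⟩ : ∃ m n : ℕ, m < n ∧ g (b^[m] y) = g (b^[n] y) := by
      have hninj : ¬ Function.Injective (fun n : ℕ => (⟨g (b^[n] y), hgF _⟩ : F)) :=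
        not_injective_infinite_finite _
      rw [Function.not_injective_iff] at hninj
      obtain ⟨m, n, h1, h2⟩ := hninj
      have h1' : g (b^[m] y) = g (b^[n] y) := congrArg Subtype.val h1
      rcases lt_or_gt_of_ne h2 with h | h
      · exact ⟨m, n, h, h1'⟩
      · exact ⟨n, m, h, h1'.symm⟩
    have h1 : d (b^[m] y) (b^[n] y) ≤ ε := hg _ _ heq
    obtain ⟨k, rfl⟩ := Nat.exists_eq_add_of_lt hmn
    refine ⟨b^[k] y, ?_⟩
    have h2 : b^[m + k + 1] y = b^[m] (b (b^[k] y)) := by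
      rw [← Function.iterate_succ_apply' b k y, ← Function.iterate_add_apply]
      rfl
    rw [h2, hiter m] at h1
    rw [dsymm]; exact h1
  have hne : (⋂ n : ℕ, {z | d (b z) y ≤ 1 / ((n:ℝ) + 1)}).Nonempty := by
    apply IsCompact.nonempty_iInter_of_directed_nonempty_isCompact_isClosed
    · intro i j
      refine ⟨max i j, ?_, ?_⟩
      · intro z hz
        have hz' : d (b z) y ≤ 1 / (((max i j : ℕ) : ℝ) + 1) := hz
        change d (b z) y ≤ _
        refine le_trans hz' ?_
        apply one_div_le_one_div_of_le (by positivity)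
        have : (i:ℝ) ≤ ((max i j : ℕ) : ℝ) := by exact_mod_cast le_max_left i j
        linarith
      · intro z hz
        have hz' : d (b z) y ≤ 1 / (((max i j : ℕ) : ℝ) + 1) := hz
        change d (b z) y ≤ _
        refine le_trans hz' ?_
        apply one_div_le_one_div_of_le (by positivity)
        have : (j:ℝ) ≤ ((max i j : ℕ) : ℝ) := by exact_mod_cast le_max_right i j
        linarith
    · intro n
      exact happ _ (by positivity)
    · intro n
      exact ((dclosed y _).preimage hbc).isCompact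
    · intro n
      exact (dclosed y _).preimage hbc
  obtain ⟨z, hz⟩ := hne
  refine ⟨z, d0 _ _ ?_⟩
  apply le_of_forall_pos_le_add
  intro ε hε
  obtain ⟨n, hn⟩ := exists_nat_one_div_lt hε
  have := mem_iInter.1 hz n
  have h3 : d (b z) y ≤ 1 / ((n:ℝ) + 1) := this
  linarith

/-- De Marr's lemma: a totally bounded set with two points has a convex combination whose
distances to the set are bounded by a number less than the diameter. -/
lemma demarr {Y : Type*} [AddCommGroup Y] [Module ℝ Y] (p : Seminorm ℝ Y) (hp0 : ∀ x, p x = 0 → x = 0)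
    (C₀ : Set Y) (hC₀conv : Convex ℝ C₀) (K : Set Y) (hKC₀ : K ⊆ C₀)
    (htb : ∀ ε > 0, ∃ (F : Finset (List Bool)) (g : K → List Bool), (∀ x, g x ∈ F) ∧
      ∀ x y : K, g x = g y → p ((x:Y) - y) ≤ ε) (x₀ y₀ : K) (hxy : x₀ ≠ y₀) :
    ∃ (u : Y) (ρ : ℝ), u ∈ C₀ ∧ (∀ k : K, p (u - k) ≤ ρ) ∧ ∃ k₁ k₂ : K, ρ < p ((k₁ : Y) - k₂) := by
  classical
  have dtri : ∀ x y z : Y, p (x - z) ≤ p (x - y) + p (y - z) := by
    intro x y z
    have h : x - z = (x - y) + (y - z) := by abel
    rw [h]; exact map_add_le_add p _ _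
  -- boundedness
  have hbdd : BddAbove (range fun q : K × K => p ((q.1 : Y) - q.2)) := by
    obtain ⟨F, g, hgF, hg⟩ := htb 1 one_pos
    have hrep : ∀ w : List Bool, ∃ r : K, (∃ x, g x = w) → g r = w := by
      intro w
      by_cases h : ∃ x, g x = w
      · obtain ⟨x, hx⟩ := h
        exact ⟨x, fun _ => hx⟩
      · exact ⟨x₀, fun h' => absurd h' h⟩
    choose r hr using hrep
    refine ⟨2 + ∑ v ∈ F, ∑ w ∈ F, p ((r v : Y) - r w), ?_⟩
    rintro _ ⟨⟨x, y⟩, rfl⟩
    have h1 : p ((x:Y) - (r (g x))) ≤ 1 := hg _ _ (hr (g x) ⟨x, rfl⟩).symm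
    have h2 : p ((r (g y) : Y) - y) ≤ 1 := hg _ _ (hr (g y) ⟨y, rfl⟩)
    have h3 : p ((r (g x) : Y) - (r (g y))) ≤ ∑ v ∈ F, ∑ w ∈ F, p ((r v : Y) - r w) := by
      calc p ((r (g x) : Y) - (r (g y))) ≤ ∑ w ∈ F, p ((r (g x) : Y) - r w) :=
            Finset.single_le_sum (f := fun w => p ((r (g x) : Y) - r w))
              (fun w _ => apply_nonneg p _) (hgF y)
        _ ≤ ∑ v ∈ F, ∑ w ∈ F, p ((r v : Y) - r w) :=
            Finset.single_le_sum (f := fun v => ∑ w ∈ F, p ((r v : Y) - r w))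
              (fun v _ => Finset.sum_nonneg fun w _ => apply_nonneg p _) (hgF x)
    have h4 := dtri x (r (g x)) y
    have h5 := dtri (r (g x)) (r (g y)) y
    change p ((x:Y) - y) ≤ _
    linarith
  obtain ⟨δ, hδ⟩ : ∃ δ, δ = sSup (range fun q : K × K => p ((q.1 : Y) - q.2)) := ⟨_, rfl⟩
  have hle : ∀ x y : K, p ((x:Y) - y) ≤ δ := fun x y => hδ ▸ le_csSup hbdd ⟨(x, y), rfl⟩
  have hδpos : 0 < δ := by
    have h1 := hle x₀ y₀
    have h2 : 0 < p ((x₀:Y) - y₀) := by
      apply lt_of_le_of_ne (apply_nonneg p _)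
      intro h
      exact hxy (Subtype.ext (sub_eq_zero.1 (hp0 _ h.symm)))
    linarith
  obtain ⟨F, g, hgF, hg⟩ := htb (δ / 2) (by linarith)
  obtain ⟨F', hF'⟩ : ∃ F' : Finset (List Bool), F' = F.filter (fun w => ∃ x, g x = w) := ⟨_, rfl⟩
  have hgF' : ∀ x, g x ∈ F' := fun x => hF' ▸ Finset.mem_filter.2 ⟨hgF x, x, rfl⟩
  have hrep : ∀ w : List Bool, ∃ r : K, w ∈ F' → g r = w := by
    intro w
    by_cases h : w ∈ F'
    · obtain ⟨x, hx⟩ := (Finset.mem_filter.1 (hF' ▸ h)).2
      exact ⟨x, fun _ => hx⟩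
    · exact ⟨x₀, fun h' => absurd h' h⟩
  choose r hr using hrep
  have hF'ne : F'.Nonempty := ⟨_, hgF' x₀⟩
  obtain ⟨n, hn⟩ : ∃ n : ℕ, n = F'.card := ⟨_, rfl⟩
  have hn1 : 0 < n := hn ▸ hF'ne.card_pos
  have hcard : (0:ℝ) < n := by exact_mod_cast hn1
  obtain ⟨κ, hκ⟩ : ∃ κ : ℝ, κ = 1 / n := ⟨_, rfl⟩
  have hκ0 : 0 ≤ κ := by rw [hκ]; positivity
  have hκn : n * κ = 1 := by rw [hκ]; field_simp
  refine ⟨∑ w ∈ F', κ • (r w : Y), δ - δ / 2 * κ, ?_, ?_, ?_⟩
  · apply hC₀conv.sum_mem
    · intro w _; exact hκ0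
    · rw [Finset.sum_const, nsmul_eq_mul, ← hn, hκn]
    · intro w _; exact hKC₀ (r w).2
  · intro k
    have e1 : ∑ w ∈ F', κ • (r w : Y) - k = ∑ w ∈ F', κ • ((r w : Y) - k) := by
      simp only [smul_sub, Finset.sum_sub_distrib]
      rw [Finset.sum_const, ← hn, ← Nat.cast_smul_eq_nsmul ℝ, smul_smul, hκn, one_smul]
    rw [e1]
    calc p (∑ w ∈ F', κ • ((r w : Y) - k))
        ≤ ∑ w ∈ F', p (κ • ((r w : Y) - k)) :=
          Finset.le_sum_of_subadditive p (map_zero p).le (map_add_le_add p) _ _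
      _ = ∑ w ∈ F', κ * p ((r w : Y) - k) := by
          apply Finset.sum_congr rfl
          intro w _
          rw [map_smul_eq_mul, Real.norm_of_nonneg hκ0]
      _ = κ * ∑ w ∈ F', p ((r w : Y) - k) := by rw [Finset.mul_sum]
      _ ≤ κ * (δ * n - δ / 2) := by
          apply mul_le_mul_of_nonneg_left _ hκ0
          rw [← Finset.add_sum_erase F' _ (hgF' k)]
          have h1 : p ((r (g k) : Y) - k) ≤ δ / 2 := hg _ _ (hr (g k) (hgF' k))
          have h2 : ∑ w ∈ F'.erase (g k), p ((r w : Y) - k) ≤ ∑ w ∈ F'.erase (g k), δ :=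
            Finset.sum_le_sum fun w _ => hle _ _
          rw [Finset.sum_const, Finset.card_erase_of_mem (hgF' k), nsmul_eq_mul, ← hn,
            Nat.cast_sub hn1] at h2
          push_cast at h2
          linarith
      _ = δ - δ / 2 * κ := by
          linear_combination δ * hκn
  · have hρδ : δ - δ / 2 * κ < δ := by
      have : 0 < κ := by rw [hκ]; positivity
      have := mul_pos (half_pos hδpos) this
      linarith
    rw [hδ] at hρδ
    have hnemp : (range fun q : K × K => p ((q.1 : Y) - q.2)).Nonempty := ⟨_, ⟨(x₀, y₀), rfl⟩⟩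
    obtain ⟨_, ⟨⟨k₁, k₂⟩, rfl⟩, hk⟩ := exists_lt_of_lt_csSup hnemp hρδ
    refine ⟨k₁, k₂, ?_⟩
    rw [hδ]; exact hk

/-- The core of the proof, for a compact convex set in a real vector space with a Hausdorff topology
and a norm `p` whose closed balls are closed. -/
lemma core [AddCommGroup Y] [Module ℝ Y] (p : Seminorm ℝ Y) (hp0 : ∀ x, p x = 0 → x = 0)
    (hball : ∀ (x : Y) (r : ℝ), IsClosed {y | p (y - x) ≤ r})
    (C : Set Y) (hne : C.Nonempty) (hC : IsCompact C) (hconv : Convex ℝ C)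
    (hsep : ∃ f : ℕ → Y, ∀ x ∈ C, ∀ ε > 0, ∃ n, p (x - f n) ≤ ε)
    (e a b c : Y → Y)
    (heC : MapsTo e C C) (haC : MapsTo a C C) (hbC : MapsTo b C C) (hcC : MapsTo c C C)
    (hec : ContinuousOn e C) (hbc : ContinuousOn b C) (hcc : ContinuousOn c C)
    (hen : ∀ x ∈ C, ∀ y ∈ C, p (e x - e y) ≤ p (x - y))
    (han : ∀ x ∈ C, ∀ y ∈ C, p (a x - a y) ≤ p (x - y))
    (hbn : ∀ x ∈ C, ∀ y ∈ C, p (b x - b y) ≤ p (x - y))
    (hcn : ∀ x ∈ C, ∀ y ∈ C, p (c x - c y) ≤ p (x - y))
    (hee : ∀ x ∈ C, e (e x) = e x) (hab : ∀ x ∈ C, a (b x) = e x) (hac : ∀ x ∈ C, a (c x) = e x)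
    (heb : ∀ x ∈ C, e (b x) = b x) (hecc : ∀ x ∈ C, e (c x) = c x) :
    ∃ x ∈ C, e x = x ∧ a x = x ∧ b x = x ∧ c x = x := by
  classical
  -- the minimal convex invariant set
  obtain ⟨C₀, hC₀C, hC₀ne, hC₀c, ⟨hC₀conv, heC₀, haC₀, hbC₀, hcC₀⟩, hC₀min⟩ :=
    exists_minimal C hC hne
      (fun A => Convex ℝ A ∧ MapsTo e A A ∧ MapsTo a A A ∧ MapsTo b A A ∧ MapsTo c A A)
      ⟨hconv, heC, haC, hbC, hcC⟩ (by
        intro 𝒞 _ h
        refine ⟨convex_sInter fun A hA => (h A hA).1, ?_, ?_, ?_, ?_⟩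
        · exact fun x hx A hA => (h A hA).2.1 (hx A hA)
        · exact fun x hx A hA => (h A hA).2.2.1 (hx A hA)
        · exact fun x hx A hA => (h A hA).2.2.2.1 (hx A hA)
        · exact fun x hx A hA => (h A hA).2.2.2.2 (hx A hA))
  -- the set on which e is the identity
  set D₀ : Set Y := e '' C₀ with hD₀
  have hD₀C₀ : D₀ ⊆ C₀ := by rintro _ ⟨x, hx, rfl⟩; exact heC₀ hx
  have hD₀C : D₀ ⊆ C := hD₀C₀.trans hC₀C
  have heD : ∀ x ∈ D₀, e x = x := by rintro _ ⟨x, hx, rfl⟩; exact hee x (hC₀C hx)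
  have hbD : MapsTo b D₀ D₀ := fun x hx => ⟨b x, hbC₀ (hD₀C₀ hx), heb x (hD₀C hx)⟩
  have hcD : MapsTo c D₀ D₀ := fun x hx => ⟨c x, hcC₀ (hD₀C₀ hx), hecc x (hD₀C hx)⟩
  have hD₀c : IsCompact D₀ := hC₀c.image_of_continuousOn (hec.mono hC₀C)
  have hbiso : ∀ x ∈ D₀, ∀ y ∈ D₀, p (b x - b y) = p (x - y) := by
    intro x hx y hy
    apply le_antisymm (hbn x (hD₀C hx) y (hD₀C hy))
    calc p (x - y) = p (a (b x) - a (b y)) := by
          rw [hab x (hD₀C hx), hab y (hD₀C hy), heD x hx, heD y hy]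
      _ ≤ p (b x - b y) := han _ (hbC (hD₀C hx)) _ (hbC (hD₀C hy))
  have hciso : ∀ x ∈ D₀, ∀ y ∈ D₀, p (c x - c y) = p (x - y) := by
    intro x hx y hy
    apply le_antisymm (hcn x (hD₀C hx) y (hD₀C hy))
    calc p (x - y) = p (a (c x) - a (c y)) := by
          rw [hac x (hD₀C hx), hac y (hD₀C hy), heD x hx, heD y hy]
      _ ≤ p (c x - c y) := han _ (hcC (hD₀C hx)) _ (hcC (hD₀C hy))
  -- the minimal set invariant under b and c
  obtain ⟨K, hKD, hKne, hKc, ⟨hbK, hcK⟩, hKmin⟩ :=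
    exists_minimal D₀ hD₀c (hC₀ne.image e) (fun A => MapsTo b A A ∧ MapsTo c A A)
      ⟨hbD, hcD⟩ (by
        intro 𝒞 _ h
        refine ⟨?_, ?_⟩
        · exact fun x hx A hA => (h A hA).1 (hx A hA)
        · exact fun x hx A hA => (h A hA).2 (hx A hA))
  have hKC : K ⊆ C := hKD.trans hD₀C
  have : Nonempty K := hKne.to_subtype
  have : CompactSpace K := isCompact_iff_compactSpace.1 hKc
  let b' : K → K := fun x => ⟨b x, hbK x.2⟩
  let c' : K → K := fun x => ⟨c x, hcK x.2⟩
  let d : K → K → ℝ := fun x y => p ((x:Y) - y)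
  have hb'c : Continuous b' := by
    apply Continuous.subtype_mk
    exact continuousOn_iff_continuous_domRestrict.1 (hbc.mono hKC)
  have hc'c : Continuous c' := by
    apply Continuous.subtype_mk
    exact continuousOn_iff_continuous_domRestrict.1 (hcc.mono hKC)
  have hb'i : ∀ x y, d (b' x) (b' y) = d x y := fun x y => hbiso x (hKD x.2) y (hKD y.2)
  have hc'i : ∀ x y, d (c' x) (c' y) = d x y := fun x y => hciso x (hKD x.2) y (hKD y.2)
  have dsymm : ∀ x y : K, d x y = d y x := fun x y => map_sub_rev p _ _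
  have dtri : ∀ x y z : K, d x z ≤ d x y + d y z := by
    intro x y z
    have h : (x:Y) - z = (x - y) + (y - z) := by abel
    show p _ ≤ _
    rw [h]; exact map_add_le_add p _ _
  have dclosed : ∀ (y : K) (r : ℝ), IsClosed {x : K | d x y ≤ r} :=
    fun y r => (hball y r).preimage continuous_subtype_val
  have d0 : ∀ x y : K, d x y ≤ 0 → x = y := by
    intro x y h
    have h1 : p ((x:Y) - y) = 0 := le_antisymm h (apply_nonneg p _)
    exact Subtype.ext (sub_eq_zero.1 (hp0 _ h1))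
  have hmin' : ∀ A : Set K, IsClosed A → A.Nonempty → MapsTo b' A A → MapsTo c' A A → A = univ := by
    intro A hA hAne hbA hcA
    have h1 : (Subtype.val '' A) = K := by
      apply hKmin
      · exact Subtype.coe_image_subset K A
      · exact hAne.image _
      · exact hA.isCompact.image continuous_subtype_val
      · refine ⟨?_, ?_⟩
        · rintro _ ⟨x, hx, rfl⟩
          exact ⟨b' x, hbA hx, rfl⟩
        · rintro _ ⟨x, hx, rfl⟩
          exact ⟨c' x, hcA hx, rfl⟩
    ext x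
    simp only [mem_univ, iff_true]
    have : (x:Y) ∈ Subtype.val '' A := by rw [h1]; exact x.2
    obtain ⟨y, hy, hxy⟩ := this
    rwa [← Subtype.ext hxy]
  have htb : ∀ ε > 0, ∃ (F : Finset (List Bool)) (g : K → List Bool), (∀ x, g x ∈ F) ∧
      ∀ x y, g x = g y → d x y ≤ ε := by
    intro ε hε
    refine totally_bounded d ?_ hb'c hc'c hb'i hc'i hmin' ε hε
    intro ε hε
    obtain ⟨f, hf⟩ := hsep
    refine ⟨fun n => {x : K | p ((x:Y) - f n) ≤ ε / 2}, ?_, ?_, ?_⟩
    · exact fun n => (hball (f n) (ε / 2)).preimage continuous_subtype_val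
    · ext x
      simp only [mem_iUnion, mem_univ, iff_true]
      exact hf x (hKC x.2) (ε / 2) (by linarith)
    · intro n x hx y hy
      have hx' : p ((x:Y) - f n) ≤ ε / 2 := hx
      have hy' : p ((y:Y) - f n) ≤ ε / 2 := hy
      have h : (x:Y) - y = (x - f n) + (f n - y) := by abel
      change p ((x:Y) - y) ≤ ε
      rw [h]
      refine (map_add_le_add p _ _).trans ?_
      rw [map_sub_rev p (f n) y]
      linarith
  -- the four maps send K onto K
  have hb'onto : ∀ y : K, ∃ z : K, b z = y := by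
    intro y
    obtain ⟨z, hz⟩ := isometry_onto d d0 dclosed dsymm htb hb'c hb'i y
    exact ⟨z, congrArg Subtype.val hz⟩
  have hc'onto : ∀ y : K, ∃ z : K, c z = y := by
    intro y
    obtain ⟨z, hz⟩ := isometry_onto d d0 dclosed dsymm htb hc'c hc'i y
    exact ⟨z, congrArg Subtype.val hz⟩
  have heK : ∀ y : K, e y = y := fun y => heD y (hKD y.2)
  have haK : ∀ y : K, a y ∈ K := by
    intro y
    obtain ⟨z, hz⟩ := hb'onto y
    rw [← hz, hab z (hKC z.2), heK z]
    exact z.2
  have ha'onto : ∀ y : K, ∃ z : K, a z = y := by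
    intro y
    exact ⟨b' y, by change a (b y) = y; rw [hab y (hKC y.2), heK y]⟩
  -- K is a point
  have hsing : ∀ x y : K, x = y := by
    by_contra hcon
    push Not at hcon
    obtain ⟨x₀, y₀, hxy⟩ := hcon
    obtain ⟨u, ρ, huC₀, huK, k₁, k₂, hk⟩ :=
      demarr p hp0 C₀ hC₀conv K (hKD.trans hD₀C₀) htb x₀ y₀ hxy
    -- the smaller invariant set
    set W : Set Y := {z | z ∈ C₀ ∧ ∀ k : K, p (z - k) ≤ ρ} with hW
    have hWC₀ : W ⊆ C₀ := fun z hz => hz.1
    have hWeq : W = C₀ := by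
      apply hC₀min W hWC₀ ⟨u, huC₀, huK⟩
      · apply hC₀c.of_isClosed_subset _ hWC₀
        have : W = C₀ ∩ ⋂ k : K, {z | p (z - k) ≤ ρ} := by
          ext z; simp [hW]
        rw [this]
        exact hC₀c.isClosed.inter (isClosed_iInter fun k => hball _ _)
      · have hinv : ∀ s : Y → Y, MapsTo s C₀ C₀ →
            (∀ x ∈ C, ∀ y ∈ C, p (s x - s y) ≤ p (x - y)) → (∀ y : K, ∃ z : K, s z = y) →
            MapsTo s W W := by
          intro s hs hsn hson z hz
          refine ⟨hs hz.1, fun k => ?_⟩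
          obtain ⟨k', hk'⟩ := hson k
          rw [← hk']
          exact (hsn z (hC₀C hz.1) k' (hKC k'.2)).trans (hz.2 k')
        refine ⟨?_, ?_, ?_, ?_, ?_⟩
        · intro z hz z' hz' s t hs ht hst
          refine ⟨hC₀conv hz.1 hz'.1 hs ht hst, fun k => ?_⟩
          have e1 : s • z + t • z' - k = s • (z - k) + t • (z' - k) := by
            rw [smul_sub, smul_sub]
            have : (k:Y) = s • (k:Y) + t • (k:Y) := by rw [← add_smul, hst, one_smul]
            nth_rewrite 1 [this]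
            abel
          rw [e1]
          refine (map_add_le_add p _ _).trans ?_
          rw [map_smul_eq_mul, map_smul_eq_mul, Real.norm_of_nonneg hs, Real.norm_of_nonneg ht]
          have h1 := mul_le_mul_of_nonneg_left (hz.2 k) hs
          have h2 := mul_le_mul_of_nonneg_left (hz'.2 k) ht
          calc s * p (z - k) + t * p (z' - k) ≤ s * ρ + t * ρ := add_le_add h1 h2
            _ = ρ := by rw [← add_mul, hst, one_mul]
        · exact hinv e heC₀ hen (fun y => ⟨y, heK y⟩)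
        · exact hinv a haC₀ han ha'onto
        · exact hinv b hbC₀ hbn hb'onto
        · exact hinv c hcC₀ hcn hc'onto
    have hk1 : (k₁ : Y) ∈ W := by rw [hWeq]; exact hD₀C₀ (hKD k₁.2)
    exact absurd (hk1.2 k₂) (not_le.2 hk)
  obtain ⟨x, hx⟩ := hKne
  refine ⟨x, hKC hx, heK ⟨x, hx⟩, ?_, ?_, ?_⟩
  · exact congrArg Subtype.val (hsing ⟨a x, haK ⟨x, hx⟩⟩ ⟨x, hx⟩)
  · exact congrArg Subtype.val (hsing ⟨b x, hbK hx⟩ ⟨x, hx⟩)
  · exact congrArg Subtype.val (hsing ⟨c x, hcK hx⟩ ⟨x, hx⟩)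

end core

/-- The relations `a b = e` and `a c = e` on the free monoid on the three letters `a = 0`, `b = 1`,
`c = 2`; `e = 1` is the identity of the monoid. -/
inductive Rels : FreeMonoid (Fin 3) → FreeMonoid (Fin 3) → Prop
  | ab : Rels (FreeMonoid.of 0 * FreeMonoid.of 1) 1
  | ac : Rels (FreeMonoid.of 0 * FreeMonoid.of 2) 1

/-- The partially bicyclic semigroup `S₂ = ⟨e, a, b, c : ab = ac = e⟩`: the monoid generated by
`a, b, c` subject only to the relations `ab = e` and `ac = e`. -/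
abbrev S₂ : Type := PresentedMonoid Rels

universe u v w

/-- The dual `E*` with the weak* topology. -/
abbrev Dual (𝕜 : Type u) [RCLike 𝕜] (E : Type w) [NormedAddCommGroup E] [NormedSpace 𝕜 E] :
    Type (max u w) := WeakDual 𝕜 E

/-- The norm distance of two elements of `E*`. -/
noncomputable def ndist {𝕜 : Type u} [RCLike 𝕜] {E : Type w} [NormedAddCommGroup E]
    [NormedSpace 𝕜 E] (x y : Dual 𝕜 E) : ℝ :=
  ‖WeakDual.toStrongDual x - WeakDual.toStrongDual y‖

/-- `C` (a subset of `E*`) is norm separable. -/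
def NormSeparable {𝕜 : Type u} [RCLike 𝕜] {E : Type w} [NormedAddCommGroup E]
    [NormedSpace 𝕜 E] (C : Set (Dual 𝕜 E)) : Prop :=
  TopologicalSpace.IsSeparable (WeakDual.toStrongDual '' C)

/-- `C` (a subset of `E*`) is convex. -/
def IsConvex {𝕜 : Type u} [RCLike 𝕜] {E : Type w} [NormedAddCommGroup E]
    [NormedSpace 𝕜 E] (C : Set (Dual 𝕜 E)) : Prop :=
  Convex ℝ (WeakDual.toStrongDual '' C)

/-- `T` is a norm nonexpansive representation of the discrete semigroup `S` on `C ⊆ E*`, and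
`(s, x) ↦ T s x` is continuous from `S × C` to `C`, where `S` is discrete and `C` carries the weak*
topology. -/
structure IsNonexpansiveRep {𝕜 : Type u} [RCLike 𝕜] {E : Type w} [NormedAddCommGroup E]
    [NormedSpace 𝕜 E] {S : Type v} [Semigroup S] (C : Set (Dual 𝕜 E)) (T : S → C → C) : Prop where
  mul : ∀ s t x, T (s * t) x = T s (T t x)
  nonexpansive : ∀ s (x y : C), ndist (T s x : Dual 𝕜 E) (T s y : Dual 𝕜 E) ≤ ndist (x : Dual 𝕜 E) y
  continuous : ∀ [TopologicalSpace S] [DiscreteTopology S], Continuous fun q : S × C => T q.1 q.2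

/-- The fixed point property `(F_{*s})` of a (discrete) semigroup `S`, for dual Banach spaces over
`𝕜 = ℝ` or `ℂ`: every norm nonexpansive representation `T` of `S` on a nonempty, norm separable,
weak* compact convex subset `C` of the dual of a Banach space `E`, for which `(s, x) ↦ T s x` is
continuous from `S × C` to `C` (`S` discrete, `C` with the weak* topology), has a common fixed
point. -/
def HasFstarS (𝕜 : Type u) [RCLike 𝕜] (S : Type v) [Semigroup S] : Prop :=
  ∀ (E : Type w) [NormedAddCommGroup E] [NormedSpace 𝕜 E] [CompleteSpace E]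
    (C : Set (Dual 𝕜 E)), C.Nonempty → IsCompact C → IsConvex C → NormSeparable C →
    ∀ T : S → C → C, IsNonexpansiveRep C T → ∃ x : C, ∀ s, T s x = x

/-- the dual norm as a real seminorm on the weak dual -/
noncomputable def dnorm (𝕜 : Type u) [RCLike 𝕜] (E : Type w) [NormedAddCommGroup E]
    [NormedSpace 𝕜 E] : Seminorm ℝ (WeakDual 𝕜 E) where
  toFun := fun y => ‖(WeakDual.toStrongDual y : StrongDual 𝕜 E)‖
  map_zero' := by
    change ‖(WeakDual.toStrongDual (0 : WeakDual 𝕜 E) : StrongDual 𝕜 E)‖ = 0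
    rw [map_zero, norm_zero]
  add_le' := fun x y => by
    change ‖(WeakDual.toStrongDual (x + y) : StrongDual 𝕜 E)‖ ≤ _
    rw [map_add]; exact norm_add_le _ _
  neg' := fun x => by
    change ‖(WeakDual.toStrongDual (-x) : StrongDual 𝕜 E)‖ = _
    rw [map_neg, norm_neg]
  smul' := fun r y => norm_smul r (WeakDual.toStrongDual y : StrongDual 𝕜 E)

lemma dnorm_sub (𝕜 : Type u) [RCLike 𝕜] (E : Type w) [NormedAddCommGroup E]
    [NormedSpace 𝕜 E] (x y : WeakDual 𝕜 E) :
    dnorm 𝕜 E (x - y) = ‖WeakDual.toStrongDual x - WeakDual.toStrongDual y‖ := by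
  rw [← map_sub]; rfl

/-- **MP_722163_an, Q1 (positive answer).** The partially bicyclic semigroup
`S₂ = ⟨e, a, b, c : ab = ac = e⟩` has the fixed point property `(F_{*s})`. -/
theorem result (𝕜 : Type u) [RCLike 𝕜] : HasFstarS.{u, 0, w} 𝕜 S₂ := by
  classical
  intro E _ _ _ C hne hC hconv hsep T hrep
  obtain ⟨hT, hnon, hcont⟩ := hrep
  have hTc : ∀ s, Continuous (T s) := by
    intro s
    let _ : TopologicalSpace S₂ := ⊥
    have _ : DiscreteTopology S₂ := ⟨rfl⟩
    exact (hcont).comp (Continuous.prodMk continuous_const continuous_id)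
  obtain ⟨X, hX⟩ : ∃ X : S₂ → WeakDual 𝕜 E → WeakDual 𝕜 E, ∀ s (y : C), X s y = T s y := by
    refine ⟨fun s y => if h : y ∈ C then (T s ⟨y, h⟩ : C) else y, ?_⟩
    intro s y
    simp only [y.2, dif_pos]
  have hXm : ∀ s, MapsTo (X s) C C := by
    intro s y hy
    rw [show y = ((⟨y, hy⟩ : C) : WeakDual 𝕜 E) from rfl, hX]
    exact (T s ⟨y, hy⟩).2
  have hXc : ∀ s, ContinuousOn (X s) C := by
    intro s
    rw [continuousOn_iff_continuous_domRestrict]
    have : C.domRestrict (X s) = fun y : C => (T s y : WeakDual 𝕜 E) := by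
      funext y
      exact hX s y
    rw [this]
    exact continuous_subtype_val.comp (hTc s)
  have hXn : ∀ s, ∀ x ∈ C, ∀ y ∈ C, dnorm 𝕜 E (X s x - X s y) ≤ dnorm 𝕜 E (x - y) := by
    intro s x hx y hy
    rw [show x = ((⟨x, hx⟩ : C) : WeakDual 𝕜 E) from rfl,
      show y = ((⟨y, hy⟩ : C) : WeakDual 𝕜 E) from rfl, hX, hX, dnorm_sub, dnorm_sub]
    exact hnon s ⟨x, hx⟩ ⟨y, hy⟩
  have hXmul : ∀ s t, ∀ x ∈ C, X s (X t x) = X (s * t) x := by
    intro s t x hx
    rw [show x = ((⟨x, hx⟩ : C) : WeakDual 𝕜 E) from rfl, hX, hX, hX, hT]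
  have hsep' : ∃ f : ℕ → WeakDual 𝕜 E, ∀ x ∈ C, ∀ ε > 0, ∃ n, dnorm 𝕜 E (x - f n) ≤ ε := by
    obtain ⟨c, hc, hcl⟩ := hsep
    have hcne : c.Nonempty := by
      obtain ⟨x, hx⟩ := hne
      have := hcl (mem_image_of_mem _ hx)
      rw [← closure_nonempty_iff]
      exact ⟨_, this⟩
    obtain ⟨f, rfl⟩ := hc.exists_eq_range hcne
    refine ⟨fun n => WeakDual.toStrongDual.symm (f n), ?_⟩
    intro x hx ε hε
    have h1 := hcl (mem_image_of_mem _ hx)
    rw [Metric.mem_closure_iff] at h1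
    obtain ⟨_, ⟨n, rfl⟩, h2⟩ := h1 ε hε
    refine ⟨n, ?_⟩
    rw [dist_eq_norm] at h2
    rw [dnorm_sub, LinearEquiv.apply_symm_apply]
    exact h2.le
  obtain ⟨a, ha⟩ : ∃ a : S₂, a = PresentedMonoid.of Rels 0 := ⟨_, rfl⟩
  obtain ⟨b, hb⟩ : ∃ b : S₂, b = PresentedMonoid.of Rels 1 := ⟨_, rfl⟩
  obtain ⟨c, hc⟩ : ∃ c : S₂, c = PresentedMonoid.of Rels 2 := ⟨_, rfl⟩
  have hab : a * b = 1 := by rw [ha, hb]; exact PresentedMonoid.mk_eq_mk_of_rel Rels.ab
  have hac : a * c = 1 := by rw [ha, hc]; exact PresentedMonoid.mk_eq_mk_of_rel Rels.ac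
  have hball : ∀ (x : WeakDual 𝕜 E) (r : ℝ), IsClosed {y | dnorm 𝕜 E (y - x) ≤ r} := by
    intro x r
    have := WeakDual.isClosed_closedBall (WeakDual.toStrongDual x) r
    convert this using 1
    ext y
    change dnorm 𝕜 E (y - x) ≤ r ↔ _
    rw [mem_preimage, Metric.mem_closedBall, dist_eq_norm, ← dnorm_sub]
  have hp0 : ∀ x, dnorm 𝕜 E x = 0 → x = 0 := by
    intro x hx
    rw [← sub_zero x, dnorm_sub, map_zero, sub_zero, norm_eq_zero] at hx
    exact (map_eq_zero_iff _ WeakDual.toStrongDual.injective).1 hx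
  obtain ⟨x, hxC, h1, h2, h3, h4⟩ : ∃ x ∈ C, X 1 x = x ∧ X a x = x ∧ X b x = x ∧ X c x = x := by
    refine core (Y := WeakDual 𝕜 E) (dnorm 𝕜 E) hp0 hball
      C hne hC ?_ hsep' (X 1) (X a) (X b) (X c) (hXm _) (hXm _) (hXm _) (hXm _) (hXc _) (hXc _)
      (hXc _) (hXn _) (hXn _) (hXn _) (hXn _)
      (by intro x hx; rw [hXmul _ _ x hx, one_mul]) (by intro x hx; rw [hXmul _ _ x hx, hab])
      (by intro x hx; rw [hXmul _ _ x hx, hac]) (by intro x hx; rw [hXmul _ _ x hx, one_mul])
      (by intro x hx; rw [hXmul _ _ x hx, one_mul])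
    intro x hx y hy a b ha hb hab
    obtain ⟨z, hz, hz2⟩ := hconv (mem_image_of_mem _ hx) (mem_image_of_mem _ hy) ha hb hab
    have : z = a • x + b • y := hz2
    rw [← this]
    exact hz
  rw [ha] at h2
  rw [hb] at h3
  rw [hc] at h4
  refine ⟨⟨x, hxC⟩, ?_⟩
  have key : ∀ l : FreeMonoid (Fin 3), X (PresentedMonoid.mk Rels l) x = x := by
    intro l
    induction l with
    | one => exact h1
    | of i =>
      fin_cases i
      · exact h2
      · exact h3
      · exact h4
    | mul l m ihl ihm => rw [map_mul, ← hXmul _ _ x hxC, ihm, ihl]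
  intro s
  obtain ⟨l, rfl⟩ := PresentedMonoid.surjective_mk s
  apply Subtype.ext
  rw [← hX]
  exact key l

end Pool.Agent.Results.MP_722163_an.PartiallyBicyclic
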